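import Pool.Agent.W838.DC.All

/-!
# MP_92a1a0_co, Q1: Delanoy's descent conjecture for zircons

`(W, S)` is a finite Coxeter system (`cs`, with simple reflections `cs.simple i`) which is simply laced: all
`m(i, j)` with `i ≠ j` are `2` or `3`; so all finite types `A_n`, `D_n`, `E_6`, `E_7`, `E_8`, and their
products.  If `u < w` in Bruhat order and `[u, w]` is a zircon, then there is a left descent `s` of `w` such
that `s w ≱ u` or `s u > u`.

The definitions below are the usual ones; they agree with the ones of `Pool.Agent.W838.DC.Stm2` used in the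
proof.
-/

set_option autoImplicit false

namespace Pool.Agent.Results.MP_92a1a0_co.DescentConjecture

variable {B : Type*} {M : CoxeterMatrix B} {W : Type*} [Group W] (cs : CoxeterSystem M W)

/-- The Bruhat order `u ≤ w`: there is a chain from `u` to `w` of left multiplications by reflections which
increase the length -/
def BLe (u w : W) : Prop :=
  Relation.ReflTransGen
    (fun x y => ∃ t, cs.IsReflection t ∧ y = t * x ∧ cs.length x < cs.length y) u w

/-- strict Bruhat order -/
def BLt (u w : W) : Prop := BLe cs u w ∧ u ≠ w

/-- `x` lies in the Bruhat interval `[u, v]` -/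
def InInt (u v x : W) : Prop := BLe cs u x ∧ BLe cs x v

/-- `y` covers `x` in Bruhat order (for elements of an interval it is the same to cover in the interval) -/
def BCov (x y : W) : Prop := BLt cs x y ∧ ∀ z, BLt cs x z → ¬ BLt cs z y

/-- `f` is a special matching of the Bruhat interval `[u, v]`: an involution of `[u, v]` such that `f x`
covers `x` or `x` covers `f x` for every `x`, and such that whenever `y` covers `x` and `f x ≠ y` one has
`f x < f y` -/
structure IsSpecialMatching (u v : W) (f : W → W) : Prop where
  maps : ∀ x, InInt cs u v x → InInt cs u v (f x)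
  inv : ∀ x, InInt cs u v x → f (f x) = x
  cov : ∀ x, InInt cs u v x → BCov cs x (f x) ∨ BCov cs (f x) x
  special : ∀ x y, InInt cs u v x → InInt cs u v y → BCov cs x y → f x ≠ y → BLt cs (f x) (f y)

/-- the Bruhat interval `[u, w]` is a zircon: for every `v` with `u < v ≤ w` the interval `[u, v]` has a
special matching -/
def IsZircon (u w : W) : Prop := ∀ v, BLt cs u v → BLe cs v w → ∃ f, IsSpecialMatching cs u v f

/-- **Delanoy's descent conjecture**, for all finite simply laced Coxeter systems -/
theorem result {B : Type*} {M : CoxeterMatrix B} {W : Type*} [Group W] [Finite W]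
    (cs : CoxeterSystem M W) (hsl : ∀ i j, i ≠ j → M i j = 2 ∨ M i j = 3) (u w : W)
    (huw : BLt cs u w) (hz : IsZircon cs u w) :
    ∃ i : B, cs.length (cs.simple i * w) < cs.length w ∧
      (¬ BLe cs u (cs.simple i * w) ∨ BLt cs u (cs.simple i * u)) := by
  have hz' : Pool.Agent.W838.DC.IsZircon cs u w := by
    intro v h1 h2
    obtain ⟨f, hf⟩ := hz v h1 h2
    exact ⟨f, ⟨hf.maps, hf.inv, hf.cov, hf.special⟩⟩
  obtain ⟨i, h1, h2⟩ := Pool.Agent.W838.DC.a_final cs hsl u w huw hz'
  refine ⟨i, h1, ?_⟩
  rcases h2 with h2 | h2
  · exact Or.inl h2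
  · right
    refine ⟨Relation.ReflTransGen.single ⟨cs.simple i, cs.isReflection_simple i, rfl, h2⟩, ?_⟩
    intro h3
    rw [← h3] at h2
    exact lt_irrefl _ h2

end Pool.Agent.Results.MP_92a1a0_co.DescentConjecture
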